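import Mathlib
import Pool.Agent.TH507.DS.D

/-!
# Directness of the weight grading for multiple zeta values of large weight and small height
-/

set_option autoImplicit false

namespace Pool.Agent.Results.MP_4d52ff_nt.AffineDirectness

/-- `trunc [s_1, ..., s_r] m` is the sum of `∏ k_i ^ (-s_i)` over `m > k_1 > ... > k_r ≥ 1` -/
noncomputable def trunc : List ℕ → ℕ → ℝ
  | [], _ => 1
  | s :: l, m => ∑ j ∈ Finset.Ico 1 m, trunc l j / (j : ℝ) ^ s

/-- the multiple zeta value `ζ(s_1, ..., s_r)`, `s_1` belongs to the largest variable -/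
noncomputable def mzv : List ℕ → ℝ
  | [] => 1
  | s :: l => ∑' k : ℕ, trunc l (k + 1) / ((k + 1 : ℕ) : ℝ) ^ s

/-- words `[(a_1, b_1), ..., (a_r, b_r)]` with `r ≥ 1`, `a_1 ≥ 1` and no letter `(0, 0)` -/
def Admissible : List (ℕ × ℕ) → Prop
  | [] => False
  | x :: l => 1 ≤ x.1 ∧ ∀ y ∈ l, y ≠ (0, 0)

/-- the arguments `(a_1 n + b_1, ..., a_r n + b_r)` -/
def args (n : ℕ) (w : List (ℕ × ℕ)) : List ℕ := w.map fun x => x.1 * n + x.2

/-- the product `∏_{u ∈ M} ζ(u(n))` for a list `M` of words -/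
noncomputable def value (n : ℕ) (M : List (List (ℕ × ℕ))) : ℝ :=
  (M.map fun u => mzv (args n u)).prod

/-- the weight of this product -/
def weight (n : ℕ) (M : List (List (ℕ × ℕ))) : ℕ := (M.map fun u => (args n u).sum).sum

/-- Let `F` be a finite set of nonempty lists of admissible words and `C` a real number. There are
`B > 1` and `n0` such that for every `n ≥ n0` and all integers `a` and `c M` with `|c M| ≤ C ^ n`:
if `|a + ∑ c M ∏_{u ∈ M} ζ(u(n))| ≤ B ^ (-n)`, then `a = 0` and for every `p` the part of the sum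
of weight `p` is zero (for `n` and for every other `m ≥ n0`). -/
theorem result (F : Finset (List (List (ℕ × ℕ))))
    (hF : ∀ M ∈ F, M ≠ [] ∧ ∀ u ∈ M, Admissible u) (C : ℝ) :
    ∃ B : ℝ, 1 < B ∧ ∃ n0 : ℕ, ∀ n : ℕ, n0 ≤ n → ∀ (a : ℤ) (c : List (List (ℕ × ℕ)) → ℤ),
      (∀ M ∈ F, |(c M : ℝ)| ≤ C ^ n) →
      |(a : ℝ) + ∑ M ∈ F, (c M : ℝ) * value n M| ≤ (B ^ n)⁻¹ →
      a = 0 ∧ ∀ m : ℕ, n0 ≤ m → ∀ p : ℕ,
        ∑ M ∈ F with weight m M = p, (c M : ℝ) * value m M = 0 := by
  have h1 : ∀ l m, trunc l m = Pool.Agent.TH507.WD.hr l m := by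
    intro l
    induction l with
    | nil => intro m; rw [trunc, Pool.Agent.TH507.WD.hr]
    | cons s l ih =>
      intro m
      rw [trunc, Pool.Agent.TH507.WD.hr]
      exact Finset.sum_congr rfl fun j _ => by rw [ih]
  have h2 : ∀ l, mzv l = Pool.Agent.TH507.WD.mz l := by
    intro l
    cases l with
    | nil => rw [mzv, Pool.Agent.TH507.WD.mz]
    | cons s l =>
      rw [mzv, Pool.Agent.TH507.WD.mz]
      exact tsum_congr fun k => by rw [h1]
  have h3 : ∀ n M, value n M =
      (M.map fun u => Pool.Agent.TH507.WD.mz (Pool.Agent.TH507.WG.ar n u)).prod := by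
    intro n M
    rw [value]
    simp only [h2]
    rfl
  have h4 : ∀ n M, weight n M = Pool.Agent.TH507.DS.wtM n M := fun n M => rfl
  have hadm : ∀ w, Admissible w → w ≠ [] ∧ Pool.Agent.TH507.WG.HP w ∧
      Pool.Agent.TH507.WG.OK w := by
    intro w hw
    cases w with
    | nil => exact hw.elim
    | cons x l =>
      refine ⟨List.cons_ne_nil _ _, hw.1, fun y hy hy1 => ?_⟩
      rcases List.mem_cons.1 hy with rfl | hy
      · have h13 := hw.1
        omega
      · have h13 := hw.2 y hy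
        by_contra h14
        exact h13 (Prod.ext hy1 (by show y.2 = 0; omega))
  simp only [h3, h4]
  exact Pool.Agent.TH507.DS.dir_main F (fun M hM => ⟨(hF M hM).1, fun u hu =>
    hadm u ((hF M hM).2 u hu)⟩) C

end Pool.Agent.Results.MP_4d52ff_nt.AffineDirectness
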