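import Pool.Agent.TH137.MZ.Final

/-!
# Directness of the sum of the spaces of multiple zeta values

The sum of the spaces `𝒵_n` is direct if and only if `π` (equivalently: any chosen nonzero element
of any `𝒵_m`, `m ≥ 1`) is transcendental over the field of the quotients of two elements of equal
weight, and if and only if the dimension of `𝒵_0 + ... + 𝒵_N` is asymptotic to the sum of the
dimensions.
-/

set_option autoImplicit false

namespace Pool.Agent.Results.MP_4d52ff_nt.TranscendenceOverRatios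

/-- The `ℚ`-space `𝒵_n` spanned by the multiple zeta values of weight `n`, as in the frozen statement
(the empty index has value `1` and weight `0`). -/
noncomputable def Z (n : ℕ) : Submodule ℚ ℝ :=
  Submodule.span ℚ
    {x : ℝ | ∃ t : ℕ, ∃ k : Fin t → ℕ,
      (∀ i, 1 ≤ k i) ∧ (∀ h : 0 < t, 2 ≤ k ⟨0, h⟩) ∧ (∑ i, k i) = n ∧
      x = ∑' m : {m : Fin t → ℕ // StrictAnti m ∧ ∀ i, 1 ≤ m i},
            ∏ i, (((m.1 i : ℕ) : ℝ) ^ (k i))⁻¹}

/-- Q1, in the words of the frozen statement: the sum `𝒵_0 + ... + 𝒵_p` is direct for every `p`. -/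
def SumIsDirect : Prop :=
  ∀ p : ℕ, ∀ z : ℕ → ℝ, (∀ j ≤ p, z j ∈ Z j) →
    (∑ j ∈ Finset.range (p + 1), z j) = 0 → ∀ j ≤ p, z j = 0

/-- The set of all quotients `x / y` of two elements `x`, `y ≠ 0` of the same space `𝒵_k`. -/
def Ratios : Set ℝ := {r | ∃ k, ∃ x ∈ Z k, ∃ y ∈ Z k, y ≠ 0 ∧ r = x / y}

/-- The quotients of equal weight form a subfield `F` of `ℝ`; the sum of the `𝒵_n` is direct if and
only if `π` is transcendental over `F`, and if and only if any one nonzero element of a space `𝒵_m`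
with `m ≥ 1` is transcendental over `F`; it is direct if and only if the quotient of
`dim (𝒵_0 + ... + 𝒵_N)` by `dim 𝒵_0 + ... + dim 𝒵_N` tends to `1`; and if it is not direct, then for
some `w ≥ 1` and all `N`, `dim (𝒵_0 + ... + 𝒵_(N+w))` is at most the sum of the last `w` dimensions
`dim 𝒵_(N+1) + ... + dim 𝒵_(N+w)`. -/
theorem result :
    (∃ F : Subfield ℝ, (F : Set ℝ) = Ratios ∧
      (SumIsDirect ↔ Transcendental F Real.pi) ∧
      ∀ m : ℕ, 1 ≤ m → ∀ v ∈ Z m, v ≠ 0 → (SumIsDirect ↔ Transcendental F v)) ∧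
    (∀ n, FiniteDimensional ℚ (Z n)) ∧
    (SumIsDirect ↔ Filter.Tendsto
      (fun N : ℕ => (Module.finrank ℚ (⨆ k : Fin (N + 1), Z k : Submodule ℚ ℝ) : ℝ) /
        ((∑ k ∈ Finset.range (N + 1), Module.finrank ℚ (Z k) : ℕ) : ℝ))
      Filter.atTop (nhds 1)) ∧
    (¬ SumIsDirect → ∃ w : ℕ, 1 ≤ w ∧ ∀ N : ℕ,
      Module.finrank ℚ (⨆ k : Fin (N + w + 1), Z k : Submodule ℚ ℝ) ≤
        ∑ k ∈ Finset.range w, Module.finrank ℚ (Z (N + 1 + k))) := by
  have hZ : Z = Pool.Agent.H447R2.MZ.Zs := rfl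
  have hfin : ∀ n, FiniteDimensional ℚ (Z n) := Pool.Agent.TH137.MZ.finZs
  refine ⟨⟨Pool.Agent.TH137.MZ.quot Pool.Agent.H447R2.MZ.Zs Pool.Agent.TH137.MZ.mulZs, rfl,
    Pool.Agent.TH137.MZ.direct_iff_pi, fun m hm v hv hv0 => ⟨fun hd =>
      Pool.Agent.TH137.MZ.transcendental_of_direct Pool.Agent.TH137.MZ.mulZs hd m hm v hv hv0,
      fun ht => Pool.Agent.TH137.MZ.direct_of_some m v hv ht⟩⟩, hfin,
    Pool.Agent.TH137.MZ.direct_iff_tendsto Pool.Agent.H447R2.MZ.Zs Pool.Agent.TH137.MZ.mulZs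
      Pool.Agent.TH137.MZ.finrank_Zs_le, fun hnd => ?_⟩
  obtain ⟨w, hw, h⟩ := Pool.Agent.TH137.MZ.exists_defect Pool.Agent.H447R2.MZ.Zs
    Pool.Agent.TH137.MZ.mulZs hnd
  refine ⟨w, hw, fun N => ?_⟩
  have h1 := h N
  have h2 : Pool.Agent.TH137.MZ.T Pool.Agent.H447R2.MZ.Zs (N + w) =
      Pool.Agent.TH137.MZ.T Pool.Agent.H447R2.MZ.Zs N +
        ∑ k ∈ Finset.range w, Module.finrank ℚ (Z (N + 1 + k)) := by
    unfold Pool.Agent.TH137.MZ.T
    rw [show N + w + 1 = (N + 1) + w by ring, Finset.sum_range_add]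
    rfl
  rw [h2] at h1
  have h3 : Pool.Agent.TH137.MZ.S Pool.Agent.H447R2.MZ.Zs (N + w) ≤
      ∑ k ∈ Finset.range w, Module.finrank ℚ (Z (N + 1 + k)) := by omega
  exact h3

end Pool.Agent.Results.MP_4d52ff_nt.TranscendenceOverRatios
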